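import Pool.Agent.H65.NV.PTargets

open MeasureTheory Set Filter NumberField NumberField.InfinitePlace Pool.Agent.H65.CM4
  Pool.Agent.H61.NVK Pool.Agent.H89.NV Pool.Agent.H65.NV
open scoped Real

namespace Pool.Agent.H5.NVP_CUB

/-- continuity of the gluing of a coordinate. -/
theorem cont_cons (n : ℕ) :
    Continuous (fun p : ℝ × (Fin n → ℝ) => (Fin.cons p.1 p.2 : Fin (n + 1) → ℝ)) := by
  refine continuous_pi fun i => ?_
  refine Fin.cases ?_ (fun j => ?_) i
  · simpa using continuous_fst
  · exact (continuous_apply j).comp continuous_snd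

theorem cube_fubini (n : ℕ) (G : (Fin (n + 1) → ℝ) → ℝ) (hG : Continuous G) :
    ∫ t in Icc (0 : Fin (n + 1) → ℝ) 1, G t =
      ∫ t' in Icc (0 : Fin n → ℝ) 1, ∫ s in (0 : ℝ)..1, G (Fin.cons s t') := by
  have hmp := (volume_preserving_piFinSuccAbove (fun _ : Fin (n + 1) => ℝ) 0).symm
  have hset : (MeasurableEquiv.piFinSuccAbove (fun _ : Fin (n + 1) => ℝ) 0).symm ⁻¹'
      (Icc (0 : Fin (n + 1) → ℝ) 1) = Icc (0 : ℝ) 1 ×ˢ Icc (0 : Fin n → ℝ) 1 := by
    ext p
    rcases p with ⟨s, z⟩
    simp only [mem_preimage, mem_Icc, mem_prod, Pi.le_def]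
    constructor
    · rintro ⟨h0, h1⟩
      refine ⟨⟨?_, ?_⟩, ⟨fun i => ?_, fun i => ?_⟩⟩
      · simpa [MeasurableEquiv.piFinSuccAbove] using h0 0
      · simpa [MeasurableEquiv.piFinSuccAbove] using h1 0
      · simpa [MeasurableEquiv.piFinSuccAbove] using h0 i.succ
      · simpa [MeasurableEquiv.piFinSuccAbove] using h1 i.succ
    · rintro ⟨⟨a, b⟩, ⟨c, d⟩⟩
      constructor
      · intro i
        refine Fin.cases ?_ (fun j => ?_) i
        · simpa [MeasurableEquiv.piFinSuccAbove] using a
        · simpa [MeasurableEquiv.piFinSuccAbove] using c j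
      · intro i
        refine Fin.cases ?_ (fun j => ?_) i
        · simpa [MeasurableEquiv.piFinSuccAbove] using b
        · simpa [MeasurableEquiv.piFinSuccAbove] using d j
  have hval : ∀ (s : ℝ) (z : Fin n → ℝ),
      (MeasurableEquiv.piFinSuccAbove (fun _ : Fin (n + 1) => ℝ) 0).symm (s, z) =
        Fin.cons s z := by
    intro s z
    funext i
    refine Fin.cases ?_ (fun j => ?_) i
    · simp [MeasurableEquiv.piFinSuccAbove]
    · simp [MeasurableEquiv.piFinSuccAbove]
  have hint : IntegrableOn (fun p : ℝ × (Fin n → ℝ) => G (Fin.cons p.1 p.2))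
      (Icc (0 : ℝ) 1 ×ˢ Icc (0 : Fin n → ℝ) 1)
      ((volume : Measure ℝ).prod (volume : Measure (Fin n → ℝ))) :=
    ((hG.comp (cont_cons n)).continuousOn).integrableOn_compact (isCompact_Icc.prod isCompact_Icc)
  have h1 : ∫ t in Icc (0 : Fin (n + 1) → ℝ) 1, G t =
      ∫ p in Icc (0 : ℝ) 1 ×ˢ Icc (0 : Fin n → ℝ) 1, G (Fin.cons p.1 p.2)
        ∂((volume : Measure ℝ).prod (volume : Measure (Fin n → ℝ))) := by
    rw [← hset]
    refine (hmp.setIntegral_preimage_emb
      (MeasurableEquiv.measurableEmbedding _) G (Icc (0 : Fin (n + 1) → ℝ) 1)).symm.trans ?_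
    refine setIntegral_congr_fun ?_ ?_
    · exact (MeasurableEquiv.measurable _) measurableSet_Icc
    · intro p _
      exact congrArg G (hval p.1 p.2)
  rw [h1, ← Measure.prod_restrict, integral_prod_symm]
  · refine integral_congr_ae (ae_of_all _ fun z => ?_)
    show (∫ s in Icc (0 : ℝ) 1, G (Fin.cons s z)) = ∫ s in (0 : ℝ)..1, G (Fin.cons s z)
    rw [intervalIntegral.integral_of_le zero_le_one, integral_Icc_eq_integral_Ioc]
  · rw [Measure.prod_restrict]
    exact hint

theorem cub_fin (E : ℝ) : ∀ (n : ℕ) (F : (Fin n → ℝ) → ℝ), Continuous F →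
    (∀ (y : Fin n → ℝ) (j : Fin n),
      |F y - ∫ s in (0 : ℝ)..1, F (y + s • Pi.single j (1 : ℝ))| ≤ E) →
    ∀ y : Fin n → ℝ, |F y - ∫ t in Icc (0 : Fin n → ℝ) 1, F (y + t)| ≤ n * E := by
  intro n
  induction n with
  | zero =>
    intro F _ _ y
    have h : ∀ t : Fin 0 → ℝ, F (y + t) = F y := fun t => congrArg F (Subsingleton.elim _ _)
    have hs : Icc (0 : Fin 0 → ℝ) 1 = univ := by
      ext t
      simp only [mem_Icc, mem_univ, iff_true]
      exact ⟨fun i => i.elim0, fun i => i.elim0⟩
    have hv : (volume : Measure (Fin 0 → ℝ)).real univ = 1 := by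
      rw [Measure.real, Measure.volume_pi_eq_dirac 0, Measure.dirac_apply_of_mem (mem_univ _),
        ENNReal.toReal_one]
    simp only [h, hs, Measure.restrict_univ]
    simp [hv]
  | succ n ih =>
    intro F hF hE y
    have hcont2 : Continuous (fun p : (Fin n → ℝ) × ℝ => F (Fin.cons (y 0 + p.2) p.1)) :=
      hF.comp ((cont_cons n).comp ((continuous_const.add continuous_snd).prodMk continuous_fst))
    have hF1 : Continuous (fun z : Fin n → ℝ => ∫ s in (0 : ℝ)..1, F (Fin.cons (y 0 + s) z)) :=
      intervalIntegral.continuous_parametric_intervalIntegral_of_continuous' hcont2 0 1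
    have hcons : ∀ (a s : ℝ) (z : Fin n → ℝ) (j : Fin n),
        (Fin.cons a (z + s • Pi.single j (1 : ℝ)) : Fin (n + 1) → ℝ) =
          Fin.cons a z + s • Pi.single j.succ (1 : ℝ) := by
      intro a s z j
      funext i
      refine Fin.cases ?_ (fun l => ?_) i
      · simp [(Fin.succ_ne_zero j).symm]
      · by_cases hl : l = j
        · subst hl; simp
        · have : l.succ ≠ j.succ := fun h => hl (Fin.succ_injective _ h)
          simp [hl]
    have hE1 : ∀ (z : Fin n → ℝ) (j : Fin n),
        |(∫ s in (0 : ℝ)..1, F (Fin.cons (y 0 + s) z)) -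
          ∫ s in (0 : ℝ)..1, ∫ t in (0 : ℝ)..1,
            F (Fin.cons (y 0 + t) (z + s • Pi.single j (1 : ℝ)))| ≤ E := by
      intro z j
      have hc3 : Continuous (fun p : ℝ × ℝ =>
          F (Fin.cons (y 0 + p.2) (z + p.1 • Pi.single j (1 : ℝ)))) :=
        hcont2.comp ((continuous_const.add (continuous_fst.smul continuous_const)).prodMk
          continuous_snd)
      have hsw : (∫ s in (0 : ℝ)..1, ∫ t in (0 : ℝ)..1,
            F (Fin.cons (y 0 + t) (z + s • Pi.single j (1 : ℝ)))) =
          ∫ t in (0 : ℝ)..1, ∫ s in (0 : ℝ)..1,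
            F (Fin.cons (y 0 + t) (z + s • Pi.single j (1 : ℝ))) := by
        have hi : IntegrableOn (Function.uncurry (fun s t : ℝ =>
            F (Fin.cons (y 0 + t) (z + s • Pi.single j (1 : ℝ))))) (Icc (0 : ℝ) 1 ×ˢ Icc (0 : ℝ) 1)
            (volume.prod volume) :=
          hc3.continuousOn.integrableOn_compact (isCompact_Icc.prod isCompact_Icc)
        have hi2 := hi.mono_set (prod_mono (Ioc_subset_Icc_self (a := (0 : ℝ)) (b := 1))
          (Ioc_subset_Icc_self (a := (0 : ℝ)) (b := 1)))
        simp only [intervalIntegral.integral_of_le zero_le_one]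
        refine integral_integral_swap ?_
        rw [Measure.prod_restrict]
        exact hi2
      rw [hsw]
      have hcA : Continuous (fun t : ℝ => F (Fin.cons (y 0 + t) z)) :=
        hcont2.comp (continuous_const.prodMk continuous_id)
      have hcB : Continuous (fun t : ℝ => ∫ s in (0 : ℝ)..1,
            F (Fin.cons (y 0 + t) (z + s • Pi.single j (1 : ℝ)))) :=
        intervalIntegral.continuous_parametric_intervalIntegral_of_continuous'
          (f := fun t s : ℝ => F (Fin.cons (y 0 + t) (z + s • Pi.single j (1 : ℝ))))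
          (by
            have h := hc3.comp ((continuous_snd (X := ℝ) (Y := ℝ)).prodMk continuous_fst)
            exact h) 0 1
      rw [← intervalIntegral.integral_sub (hcA.intervalIntegrable _ _)
        (hcB.intervalIntegrable _ _)]
      have hb := intervalIntegral.norm_integral_le_of_norm_le_const (a := (0 : ℝ)) (b := 1)
        (C := E) (f := fun t => F (Fin.cons (y 0 + t) z) - ∫ s in (0 : ℝ)..1,
            F (Fin.cons (y 0 + t) (z + s • Pi.single j (1 : ℝ)))) (by
          intro t _
          have := hE (Fin.cons (y 0 + t) z) j.succ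
          simp only [← hcons] at this
          exact this)
      simpa using hb
    have hI := ih (fun z : Fin n → ℝ => ∫ s in (0 : ℝ)..1, F (Fin.cons (y 0 + s) z)) hF1 hE1
      (Fin.tail y)
    have h0 := hE y 0
    have hy0 : ∀ s : ℝ, y + s • Pi.single (0 : Fin (n + 1)) (1 : ℝ) =
        Fin.cons (y 0 + s) (Fin.tail y) := by
      intro s
      funext i
      refine Fin.cases ?_ (fun l => ?_) i
      · simp
      · simp [Fin.tail]
    simp only [hy0] at h0
    have hfub := cube_fubini n (fun t => F (y + t)) (hF.comp (continuous_const.add continuous_id))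
    have hyt : ∀ (s : ℝ) (z : Fin n → ℝ), y + (Fin.cons s z : Fin (n + 1) → ℝ) =
        Fin.cons (y 0 + s) (Fin.tail y + z) := by
      intro s z
      funext i
      refine Fin.cases ?_ (fun l => ?_) i
      · simp
      · simp [Fin.tail]
    simp only [hyt] at hfub
    rw [hfub]
    have := abs_sub_le (F y) (∫ s in (0 : ℝ)..1, F (Fin.cons (y 0 + s) (Fin.tail y)))
      (∫ t' in Icc (0 : Fin n → ℝ) 1, ∫ s in (0 : ℝ)..1,
        F (Fin.cons (y 0 + s) (Fin.tail y + t')))
    push_cast
    linarith

theorem pf_CUB : T_CUB := by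
  intro ι _ _ F E hF hE y
  have e : ι ≃ Fin (Fintype.card ι) := Fintype.equivFin ι
  -- transport
  have hc : Continuous (fun z : Fin (Fintype.card ι) → ℝ => F (fun i => z (e i))) :=
    hF.comp (continuous_pi fun i => continuous_apply (e i))
  have hmain := cub_fin E (Fintype.card ι) (fun z => F (fun i => z (e i))) hc (by
    intro z j
    have h := hE (fun i => z (e i)) (e.symm j)
    have he : ∀ s : ℝ, (fun i => (z + s • Pi.single j (1 : ℝ) : Fin (Fintype.card ι) → ℝ) (e i)) =
        (fun i => z (e i)) + s • Pi.single (e.symm j) (1 : ℝ) := by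
      intro s
      funext i
      by_cases hi : i = e.symm j
      · subst hi; simp
      · have : e i ≠ j := fun h' => hi (by rw [← h']; simp)
        simp [hi, this]
    simp only [he]
    exact h) (fun j => y (e.symm j))
  have hmp := volume_measurePreserving_piCongrLeft (fun _ : Fin (Fintype.card ι) => ℝ) e
  have hval : ∀ (t : ι → ℝ) (j : Fin (Fintype.card ι)),
      (MeasurableEquiv.piCongrLeft (fun _ : Fin (Fintype.card ι) => ℝ) e) t j = t (e.symm j) := by
    intro t j
    have := Equiv.piCongrLeft_apply_apply (fun _ : Fin (Fintype.card ι) => ℝ) e t (e.symm j)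
    simpa [MeasurableEquiv.piCongrLeft] using this
  have hset : (MeasurableEquiv.piCongrLeft (fun _ : Fin (Fintype.card ι) => ℝ) e) ⁻¹'
      (Icc (0 : Fin (Fintype.card ι) → ℝ) 1) = Icc (0 : ι → ℝ) 1 := by
    ext t
    simp only [mem_preimage, mem_Icc, Pi.le_def, hval]
    constructor
    · rintro ⟨a, b⟩
      refine ⟨fun i => ?_, fun i => ?_⟩
      · simpa using a (e i)
      · simpa using b (e i)
    · rintro ⟨a, b⟩
      exact ⟨fun j => a (e.symm j), fun j => b (e.symm j)⟩
  have hint : ∫ t in Icc (0 : Fin (Fintype.card ι) → ℝ) 1,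
      F (fun i => ((fun j => y (e.symm j)) + t) (e i)) = ∫ t in Icc (0 : ι → ℝ) 1, F (y + t) := by
    rw [← hset]
    refine (hmp.setIntegral_preimage_emb (MeasurableEquiv.measurableEmbedding _)
      (fun t => F (fun i => ((fun j => y (e.symm j)) + t) (e i)))
      (Icc (0 : Fin (Fintype.card ι) → ℝ) 1)).symm.trans ?_
    refine setIntegral_congr_fun ((MeasurableEquiv.measurable _) measurableSet_Icc) ?_
    intro t _
    refine congrArg F ?_
    funext i
    simp [hval]
  rw [hint] at hmain
  simpa using hmain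

end Pool.Agent.H5.NVP_CUB
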